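import Pool.Agent.Q33.BSec.Tr

/-!
# The norm on the completion
-/

set_option autoImplicit false
set_option linter.unusedSectionVars false

open IsDedekindDomain NumberField

namespace Pool.Agent.Q33.BSec

open Pool.Agent.TH841.NF
open Pool.Agent.Q33.SecL (norm_base)

variable {K : Type} [Field K] [NumberField K] {p : ℕ} [Fact p.Prime] (φ : K →+* PadicAlgCl p)

lemma jc_cont : Continuous (jc φ) :=
  continuous_subtype_val.comp ((UniformSpace.Completion.continuous_extension (f := jl φ)).comp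
      (HeightOneSpectrum.adicCompletion.continuous_toCompletion K (pls φ)))

lemma norm_jc_le {y : Cpl φ} (hy : Valued.v y ≤ 1) : ‖jc φ y‖ ≤ 1 := by
  have hop : IsOpen {y : Cpl φ | Valued.v y ≤ 1} := (Valued.isClopen_integer (Cpl φ)).2
  have hd : DenseRange (algebraMap K (Cpl φ)) := (pls φ).denseRange_algebraMap K
  have h1 := Dense.open_subset_closure_inter hd hop hy
  have hcl : IsClosed {y : Cpl φ | ‖jc φ y‖ ≤ 1} :=
    isClosed_le (jc_cont φ).norm continuous_const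
  refine hcl.closure_subset_iff.2 ?_ h1
  rintro _ ⟨hz, ⟨x, rfl⟩⟩
  change ‖jc φ (algebraMap K _ x)‖ ≤ 1
  rw [jc_coe]
  apply norm_le_one_of_val
  have h2 : Valued.v ((x : K) : Cpl φ) ≤ 1 := hz
  rwa [HeightOneSpectrum.valuedAdicCompletion_eq_valuation'] at h2

lemma norm_jc_eq_one {y : Cpl φ} (hy : Valued.v y = 1) : ‖jc φ y‖ = 1 := by
  have hy0 : y ≠ 0 := by
    rintro rfl
    rw [map_zero] at hy
    exact zero_ne_one hy
  refine le_antisymm (norm_jc_le φ hy.le) ?_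
  have h1 : ‖jc φ y⁻¹‖ ≤ 1 := norm_jc_le φ (by rw [map_inv₀, hy, inv_one])
  rw [map_inv₀, norm_inv] at h1
  exact (inv_le_one₀ (norm_pos_iff.2 ((map_ne_zero _).2 hy0))).1 h1

/-- the absolute ramification index -/
lemma exists_ram : ∃ e : ℕ, 0 < e ∧ Valued.v ((p : ℕ) : Cpl φ) = WithZero.exp (-(e : ℤ)) := by
  have h1 : (p : 𝓞 K) ∈ (pls φ).asIdeal := by
    change ‖φ (algebraMap (𝓞 K) K (p : 𝓞 K))‖ < 1
    rw [map_natCast, map_natCast]
    exact Pool.Agent.Q33.SecL.norm_int_lt (p := p) (z := (p : ℤ)) dvd_rfl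
  have h0 : (p : 𝓞 K) ≠ 0 := by exact_mod_cast (Fact.out : p.Prime).ne_zero
  have h2 : Valued.v ((p : ℕ) : Cpl φ) = (pls φ).intValuation (p : 𝓞 K) := by
    have h3 := HeightOneSpectrum.valuedAdicCompletion_eq_valuation' (pls φ) ((p : ℕ) : K)
    have h4 : (((p : ℕ) : K) : Cpl φ) = ((p : ℕ) : Cpl φ) := map_natCast (algebraMap K (Cpl φ)) p
    rw [h4] at h3
    rw [h3]
    have h5 : ((p : ℕ) : K) = algebraMap (𝓞 K) K (p : 𝓞 K) := (map_natCast _ _).symm
    rw [h5, HeightOneSpectrum.valuation_of_algebraMap]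
  rw [h2, HeightOneSpectrum.intValuation_if_neg _ h0]
  refine ⟨_, ?_, rfl⟩
  have h3 : (pls φ).intValuation (p : 𝓞 K) < 1 :=
    ((pls φ).intValuation_lt_one_iff_mem _).2 h1
  rw [HeightOneSpectrum.intValuation_if_neg _ h0] at h3
  have h4 : (-(((Associates.mk (pls φ).asIdeal).count
      (Associates.mk (Ideal.span {(p : 𝓞 K)})).factors : ℕ) : ℤ)) < 0 := by
    rwa [← WithZero.exp_zero, WithZero.exp_lt_exp] at h3
  omega

/-- the norm and the valuation -/
theorem norm_jc_exp {e : ℕ} (he : Valued.v ((p : ℕ) : Cpl φ) = WithZero.exp (-(e : ℤ)))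
    {y : Cpl φ} {m : ℤ} (hy : Valued.v y = WithZero.exp m) : ‖jc φ y‖ ^ e = (p : ℝ) ^ m := by
  have hp0 : ((p : ℕ) : Cpl φ) ≠ 0 := by
    intro h
    rw [h, map_zero] at he
    exact WithZero.exp_ne_zero he.symm
  have h1 : Valued.v (y ^ e * ((p : ℕ) : Cpl φ) ^ m) = 1 := by
    rw [map_mul, map_pow, map_zpow₀, hy, he, ← WithZero.exp_nsmul, ← WithZero.exp_zsmul,
      ← WithZero.exp_add]
    have h2 : e • m + m • (-(e : ℤ)) = 0 := by
      rw [smul_eq_mul, nsmul_eq_mul]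
      ring
    rw [h2, WithZero.exp_zero]
  have h2 := norm_jc_eq_one φ h1
  have h3 : ‖((p : ℕ) : PadicAlgCl p)‖ = (p : ℝ)⁻¹ := by
    have h := norm_base (p := p) ((p : ℕ) : ℚ_[p])
    rw [map_natCast] at h
    rw [h]
    exact Padic.norm_p
  rw [map_mul, map_pow, map_zpow₀, map_natCast, norm_mul, norm_pow, norm_zpow, h3,
    inv_zpow] at h2
  have hp1 : (0 : ℝ) < p := by exact_mod_cast (Fact.out : p.Prime).pos
  have h4 : (p : ℝ) ^ m ≠ 0 := (zpow_pos hp1 m).ne'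
  field_simp at h2
  exact h2

end Pool.Agent.Q33.BSec
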