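import Pool.Agent.Q33.SecL.SecD

/-!
# Local points with few contacts are almost everywhere integral
-/

set_option autoImplicit false
set_option linter.unusedSectionVars false

namespace Pool.Agent.Q33.BSec

open Polynomial IntermediateField NumberField
open Pool.Agent.Q33.SecL

lemma prod_zpow {ι : Type} (m : Multiset ι) (f : ι → ℝ) (P : ℝ) (hP : P ≠ 0) (N : ℕ)
    (h : ∀ b ∈ m, ∃ z : ℤ, f b = P ^ ((N : ℤ) * z)) :
    ∃ z : ℤ, (m.map f).prod = P ^ ((N : ℤ) * z) := by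
  induction m using Multiset.induction_on with
  | empty => exact ⟨0, by simp⟩
  | cons b m ih =>
    obtain ⟨z1, h1⟩ := h b (Multiset.mem_cons_self b m)
    obtain ⟨z2, h2⟩ := ih (fun c hc => h c (Multiset.mem_cons_of_mem hc))
    refine ⟨z1 + z2, ?_⟩
    rw [Multiset.map_cons, Multiset.prod_cons, h1, h2, ← zpow_add₀ hP, ← mul_add]

variable {K F M B : Type} [Field K] [NumberField K] [Field F] [Field M] [Field B] [Algebra F M]
  [Algebra K M] [Algebra K B] [IsAlgClosed B] [Algebra.IsAlgebraic K B]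
  [Algebra.IsAlgebraic F M]

/-- If the contacts with `θ` are zero or not divisible by `N`, they are zero almost everywhere. -/
theorem unit_of_sparse (s : GalSec K F M B) (x : F) (θ : B) [NumberField K⟮θ⟯]
    (hroot : ∀ N : ℕ, 0 < N → ∃ w : M, w ≠ 0 ∧ w ^ N = algebraMap F M x - s.j θ)
    (P : ∀ (p : ℕ) [Fact p.Prime] (φ : K →+* PadicAlgCl p), Pt K M φ)
    (hP : ∀ (p : ℕ) [Fact p.Prime] (φ : K →+* PadicAlgCl p), s.GivenBy (P p φ))
    (X : ∀ (p : ℕ) [Fact p.Prime], (K →+* PadicAlgCl p) → PadicAlgCl p)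
    (hX : ∀ (p : ℕ) [Fact p.Prime] (φ : K →+* PadicAlgCl p),
      (P p φ).Val (algebraMap F M x) (X p φ))
    (hne : ∀ (p : ℕ) [Fact p.Prime] (φ : K →+* PadicAlgCl p),
      eval₂ φ (X p φ) (minpoly K θ) ≠ 0)
    (N : ℕ) (hN : 0 < N) (D : ℕ) (hD : 0 < D)
    (h : ∀ (p : ℕ) [Fact p.Prime] (φ : K →+* PadicAlgCl p), ¬ p ∣ D → ∀ z : ℤ,
      ‖eval₂ φ (X p φ) (minpoly K θ)‖ = (p : ℝ) ^ ((N : ℤ) * z) → z = 0) :
    ∃ D' : ℕ, 0 < D' ∧ ∀ (p : ℕ) [Fact p.Prime] (φ : K →+* PadicAlgCl p), ¬ p ∣ D' →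
      ‖eval₂ φ (X p φ) (minpoly K θ)‖ = 1 := by
  have hθ : IsIntegral K θ := Algebra.IsIntegral.isIntegral θ
  set d := Module.finrank ℚ K⟮θ⟯ with hd
  have hN' : 0 < N * d.factorial := Nat.mul_pos hN (Nat.factorial_pos d)
  obtain ⟨w, hw0, hw⟩ := hroot (N * d.factorial) hN'
  obtain ⟨a, ha, g, -, hg, hfix⟩ := s.kummer x θ hN' w hw hw0
  have : Algebra.IsAlgebraic ℚ K⟮θ⟯ := inferInstance
  obtain ⟨D1, hD1, h1⟩ := units_ae ({a} : Finset K⟮θ⟯) (by
    intro e he
    rw [Finset.mem_singleton] at he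
    rw [he]
    exact ha)
  refine ⟨D * D1, Nat.mul_pos hD hD1, fun p _ φ hp => ?_⟩
  have hpD : ¬ p ∣ D := fun h => hp (h.mul_right _)
  have hpD1 : ¬ p ∣ D1 := fun h => hp (h.mul_left _)
  have hp0 : (p : ℝ) ≠ 0 := by exact_mod_cast (Fact.out : p.Prime).ne_zero
  set f := (minpoly K θ).map φ with hf
  have hfm : f.Monic := (minpoly.monic hθ).map _
  have hev : f.eval (X p φ) = eval₂ φ (X p φ) (minpoly K θ) := eval_map _ _
  have hs : f.Splits := IsAlgClosed.splits f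
  have hfe : f = (f.roots.map (fun b => Polynomial.X - C b)).prod := by
    have := hs.eq_prod_roots
    rw [hfm.leadingCoeff, C_1, one_mul] at this
    exact this
  have h2 : f.eval (X p φ) = (f.roots.map (fun b => X p φ - b)).prod := by
    conv_lhs => rw [hfe]
    rw [eval_multiset_prod, Multiset.map_map]
    congr 1
    apply Multiset.map_congr rfl
    intro b _
    simp
  have h3 : (f.roots.map (fun b => ‖X p φ - b‖)).prod = ‖f.eval (X p φ)‖ := by
    rw [h2]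
    have h4 := map_multiset_prod (normHom : PadicAlgCl p →*₀ ℝ)
      (f.roots.map (fun b => X p φ - b))
    rw [Multiset.map_map] at h4
    exact h4.symm
  obtain ⟨z, hz⟩ := prod_zpow f.roots (fun b => ‖X p φ - b‖) p hp0 N (by
    intro b hb
    have hb1 : eval₂ φ b (minpoly K θ) = 0 := by
      have := (mem_roots hfm.ne_zero).1 hb
      rw [IsRoot.def, eval_map] at this
      exact this
    obtain ⟨Φ, hΦ1, rfl⟩ := exists_hom_of_root hθ φ hb1
    obtain ⟨u, hu, hu'⟩ := s.values x θ hN' a ha g hg hfix Φ (P p _) (hP p _) _ (hX p _)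
    rw [hΦ1] at hu'
    have hXb : X p (Φ.comp (algebraMap K K⟮θ⟯)) - b ≠ 0 := by
      intro h0
      rw [sub_eq_zero] at h0
      exact hne p (Φ.comp (algebraMap K K⟮θ⟯)) (by rw [h0]; exact hb1)
    have hu0 : u ≠ 0 := by
      rintro rfl
      rw [zero_pow hN'.ne', mul_zero] at hu'
      exact hXb hu'
    obtain ⟨z, hz⟩ := norm_pow_mem (LL Φ) (LL_finite Φ) hu hu0 (LL_finrank Φ)
    refine ⟨z, ?_⟩
    change ‖X p (Φ.comp (algebraMap K K⟮θ⟯)) - b‖ = _
    rw [hu', norm_mul, norm_pow, h1 p hpD1 Φ a (Finset.mem_singleton_self _), one_mul,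
      mul_comm N, pow_mul, hz, mul_comm (N : ℤ), zpow_mul, zpow_natCast])
  rw [h3, hev] at hz
  have hz0 := h p φ hpD z hz
  rw [hz, hz0, mul_zero, zpow_zero]

end Pool.Agent.Q33.BSec
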