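import Pool.Agent.Q33.BSec.Ari
import Pool.Agent.Q33.BSec.Nrm
import Pool.Agent.Q33.BSec.Unit

/-!
# Birational sections over number fields with few contacts
-/

set_option autoImplicit false
set_option linter.unusedSectionVars false

open IsDedekindDomain NumberField Polynomial

namespace Pool.Agent.Q33.BSec

open Pool.Agent.TH942 Pool.Agent.TH954 Pool.Agent.TH841.NF
open Pool.Agent.Q33.SecL (GalSec Pt)

section geo

variable {K : Type} [Field K] [NumberField K] {F Ω B : Type} [Field F] [Field Ω] [Field B]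
  [Algebra K F] [Algebra F Ω] [Algebra K Ω] [Algebra K B] [IsScalarTower K F Ω]
  [IsAlgClosure F Ω] [IsAlgClosure K B]

/-- places compatible with the section -/
lemma geoPlc_of_cmp [Algebra.IsAlgebraic F Ω] (s : GalSection K F Ω B) {L : Type} [Field L]
    [Algebra K L] {pl : Plc K Ω (AlgebraicClosure L)} (h3 : Cmp (L := L) s pl) :
    GeoPlc (toSAct s) pl := by
  intro σ τ hστ x
  refine h3 σ ((eqv K B).autCongr τ) ?_ x _ ⟨x.2, rfl⟩
  intro z c hc
  obtain ⟨y, rfl⟩ := (eqv K B).surjective z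
  have e1 : pl.val ((toSAct s).j y) (pl.iot (toSAct s).j y) := Plc.val_j _ y
  have e2 : pl.val ((toSAct s).j (τ y)) (pl.iot (toSAct s).j (τ y)) := Plc.val_j _ (τ y)
  have e3 : s.j ((eqv K B).autCongr τ (eqv K B y)) = (toSAct s).j (τ y) := by
    change s.j (eqv K B (τ ((eqv K B).symm (eqv K B y)))) = _
    rw [AlgEquiv.symm_apply_apply]
    rfl
  have e4 : pl.iot (toSAct s).j y = c := e1.unique hc
  rw [e3, ← e4, ← hστ y]
  exact e2

end geo

section primes

variable {K : Type} [Field K] [NumberField K]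

lemma prime_eq (v : HeightOneSpectrum (𝓞 K)) {p q : ℕ} (hp : p.Prime) (hq : q.Prime)
    (h1 : (p : 𝓞 K) ∈ v.asIdeal) (h2 : (q : 𝓞 K) ∈ v.asIdeal) : p = q := by
  by_contra hne
  have hc : IsCoprime (p : ℤ) (q : ℤ) := Nat.isCoprime_iff_coprime.2
    ((Nat.coprime_primes hp hq).2 hne)
  obtain ⟨a, b, hab⟩ := hc
  apply v.isPrime.ne_top
  rw [Ideal.eq_top_iff_one]
  have h3 : (1 : 𝓞 K) = (a : 𝓞 K) * (p : 𝓞 K) + (b : 𝓞 K) * (q : 𝓞 K) := by
    have := congrArg (Int.cast : ℤ → 𝓞 K) hab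
    push_cast at this
    exact this.symm
  rw [h3]
  exact add_mem (Ideal.mul_mem_left _ _ h1) (Ideal.mul_mem_left _ _ h2)

lemma mem_pls {p : ℕ} [Fact p.Prime] (φ : K →+* PadicAlgCl p) : (p : 𝓞 K) ∈ (pls φ).asIdeal := by
  change ‖φ (algebraMap (𝓞 K) K (p : 𝓞 K))‖ < 1
  rw [map_natCast, map_natCast]
  exact Pool.Agent.Q33.SecL.norm_int_lt (p := p) (z := (p : ℤ)) dvd_rfl

/-- finitely many places lie above finitely many primes -/
lemma exists_bound (T : Set (HeightOneSpectrum (𝓞 K))) (hT : T.Finite) : ∃ D : ℕ, 0 < D ∧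
    ∀ (p : ℕ) [Fact p.Prime] (φ : K →+* PadicAlgCl p), ¬ p ∣ D → pls φ ∉ T := by
  classical
  choose q hq hqm using fun v : HeightOneSpectrum (𝓞 K) => Pool.Agent.Y682.exists_prime_mem v
  refine ⟨∏ v ∈ hT.toFinset, q v, Finset.prod_pos fun v _ => (hq v).pos, ?_⟩
  intro p hp φ hpD hmem
  apply hpD
  have h1 : p = q (pls φ) := prime_eq (pls φ) hp.out (hq _) (mem_pls φ) (hqm _)
  rw [h1]
  exact Finset.dvd_prod_of_mem q (hT.mem_toFinset.2 hmem)

end primes

section main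

variable {K : Type} [Field K] [NumberField K] {F Ω B : Type} [Field F] [Field Ω] [Field B]
  [Algebra K F] [Algebra F Ω] [Algebra K Ω] [Algebra K B] [IsScalarTower K F Ω]
  [IsAlgClosure F Ω] [IsAlgClosure K B]

lemma eval_jc {p : ℕ} [Fact p.Prime] (φ : K →+* PadicAlgCl p) (y : Cpl φ) (f : K[X]) :
    eval₂ φ (jc φ y) f = jc φ (aeval y f) := by
  rw [aeval_def, hom_eval₂]
  congr 1
  ext c
  exact (jc_coe φ c).symm

/-- **Birational sections with few contacts.** -/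
theorem main (s : GalSection K F Ω B) (x : F) (hx : Transcendental K x)
    (hF : Algebra.IsAlgebraic (IntermediateField.adjoin K {x}) F) {r : ℕ} (θ : Fin r → B)
    (hθ : ∀ i i', i ≠ i' → minpoly K (θ i) ≠ minpoly K (θ i'))
    (enough : Module.finrank ℚ K ≤ r ∨
      (Module.finrank ℚ K ≤ 2 * r ∧ ∃ L : IntermediateField ℚ K, IsCMField L) ∨
      (IsCMField K ∧ ∃ c : Fin 3 → K, (∀ k, ∃ i, θ i = algebraMap K B (c k)) ∧
        (c 1 - c 0) / (c 2 - c 0) ∉ maximalRealSubfield K))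
    (pl : ∀ v : HeightOneSpectrum (𝓞 K), Plc K Ω (AlgebraicClosure (v.adicCompletion K)))
    (hpl : ∀ v : HeightOneSpectrum (𝓞 K), Cmp (L := v.adicCompletion K) s (pl v))
    (X : ∀ v : HeightOneSpectrum (𝓞 K), v.adicCompletion K)
    (hX : ∀ v, (pl v).val (algebraMap F Ω x) (algebraMap _ _ (X v)))
    (hne : ∀ v i, aeval (X v) (minpoly K (θ i)) ≠ 0)
    (N : ℕ) (hN : 0 < N)
    (hsp : ∀ᶠ v in Filter.cofinite, ∀ (i : Fin r) (k : ℤ),
      Valued.v (aeval (X v) (minpoly K (θ i))) = WithZero.exp ((N : ℤ) * k) → k = 0) :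
    ∃ ξ : K, (∀ v, X v = algebraMap K (v.adicCompletion K) ξ) ∧
      ∃ O : ValuationSubring F, s.ArisesFrom O ∧ O.valuation (x - algebraMap K F ξ) < 1 ∧
        ∀ O' : ValuationSubring F, s.ArisesFrom O' → O' = O := by
  have hΩ1 : IsAlgClosed Ω := IsAlgClosure.isAlgClosed F
  have hΩ2 : Algebra.IsAlgebraic F Ω := IsAlgClosure.isAlgebraic
  have hB1 : IsAlgClosed B := IsAlgClosure.isAlgClosed K
  have hB2 : Algebra.IsAlgebraic K B := IsAlgClosure.isAlgebraic
  have hint : ∀ z : B, IsIntegral K z := fun z => Algebra.IsIntegral.isIntegral z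
  have hroot : ∀ i, ∀ N : ℕ, 0 < N → ∃ w : Ω, w ≠ 0 ∧
      w ^ N = algebraMap F Ω x - (toSec s).j (θ i) := by
    intro i N hN
    obtain ⟨w, hw⟩ := IsAlgClosed.exists_pow_nat_eq
      (algebraMap F Ω x - (toSec s).j (θ i)) hN
    refine ⟨w, ?_, hw⟩
    rintro rfl
    rw [zero_pow hN.ne'] at hw
    have h1 : algebraMap F Ω x = (toSec s).j (θ i) := (sub_eq_zero.1 hw.symm)
    have h2 : IsAlgebraic K (algebraMap F Ω x) := by
      rw [h1]
      exact (hint (θ i)).isAlgebraic.algHom _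
    exact hx ((isAlgebraic_algebraMap_iff (algebraMap F Ω).injective).1 h2)
  have hXv : ∀ (p : ℕ) [Fact p.Prime] (φ : K →+* PadicAlgCl p),
      (toPt φ (pl (pls φ))).Val (algebraMap F Ω x) (jc φ (X (pls φ))) := by
    intro p _ φ
    have h1 := toPt_val (hX (pls φ))
    rwa [bx_alg] at h1
  have hne' : ∀ (p : ℕ) [Fact p.Prime] (φ : K →+* PadicAlgCl p) (i : Fin r),
      eval₂ φ (jc φ (X (pls φ))) (minpoly K (θ i)) ≠ 0 := by
    intro p _ φ i
    rw [eval_jc]
    exact (_root_.map_ne_zero _).2 (hne _ i)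
  have hgiv : ∀ (p : ℕ) [Fact p.Prime] (φ : K →+* PadicAlgCl p),
      (toSec s).GivenBy (toPt φ (pl (pls φ))) := fun p _ φ =>
    givenBy_of_cmp s φ _ (hpl _)
  obtain ⟨D, hD, hDT⟩ := exists_bound _ (Filter.eventually_cofinite.1 hsp)
  have hunit : ∀ i : Fin r, ∃ D' : ℕ, 0 < D' ∧ ∀ (p : ℕ) [Fact p.Prime]
      (φ : K →+* PadicAlgCl p), ¬ p ∣ D' →
      ‖eval₂ φ (jc φ (X (pls φ))) (minpoly K (θ i))‖ = 1 := by
    intro i
    have := Pool.Agent.Q33.SecL.numberField_adjoin (hint (θ i))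
    refine unit_of_sparse (toSec s) x (θ i) (hroot i)
      (fun p _ φ => toPt φ (pl (pls φ))) hgiv (fun p _ φ => jc φ (X (pls φ))) hXv
      (fun p _ φ => hne' p φ i) N hN D hD ?_
    intro p _ φ hp z hz
    have h1 := hDT p φ hp
    simp only [Set.mem_ofPred_eq, not_not] at h1
    rw [eval_jc] at hz
    obtain ⟨e, he, hve⟩ := exists_ram φ
    set y := aeval (X (pls φ)) (minpoly K (θ i)) with hy
    have hy0 : Valued.v y ≠ 0 := (Valuation.ne_zero_iff _).2 (hne _ i)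
    obtain ⟨m, hm⟩ : ∃ m : ℤ, Valued.v y = WithZero.exp m :=
      ⟨WithZero.log (Valued.v y), (WithZero.exp_log hy0).symm⟩
    have h2 := norm_jc_exp φ hve hm
    have hp1 : (1 : ℝ) < p := by exact_mod_cast (Fact.out : p.Prime).one_lt
    have h3 : (p : ℝ) ^ ((N : ℤ) * z * e) = (p : ℝ) ^ m := by
      rw [← h2, hz, zpow_mul, zpow_natCast]
    have h4 : (N : ℤ) * z * e = m := zpow_right_injective₀ (by linarith) hp1.ne' h3
    have h5 : z * e = 0 := by
      apply h1 i (z * e)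
      rw [← hy, hm, ← h4, mul_assoc]
    rcases mul_eq_zero.1 h5 with h6 | h6
    · exact h6
    · have : e = 0 := by exact_mod_cast h6
      omega
  choose D' hD' hDu using hunit
  obtain ⟨ξ, -, hξ, -⟩ := Pool.Agent.Q33.SecL.main (toSec s) x θ hθ enough hroot
    (fun p _ φ => toPt φ (pl (pls φ))) hgiv (fun p _ φ => jc φ (X (pls φ))) hXv hne'
    ⟨∏ i, D' i, Finset.prod_pos fun i _ => hD' i, fun p _ φ i hp =>
      hDu i p φ (fun h => hp (h.trans (Finset.dvd_prod_of_mem D' (Finset.mem_univ i))))⟩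
  have hXξ : ∀ v, X v = algebraMap K (v.adicCompletion K) ξ := by
    intro v
    obtain ⟨p, hp, φ, rfl⟩ := exists_pls v
    apply (jc φ).injective
    rw [jc_coe]
    exact hξ p φ
  refine ⟨ξ, hXξ, arises_of_val_zero ⟨x, hx, hF⟩ s pl (fun v => geoPlc_of_cmp s (hpl v))
    (x - algebraMap K F ξ) ?_ ?_⟩
  · intro h
    apply hx
    rw [sub_eq_zero.1 h]
    exact isAlgebraic_algebraMap ξ
  · intro v
    have h1 := (hX v).sub (Plc.val_alg (pl := pl v) ξ)
    rw [hXξ v, ← IsScalarTower.algebraMap_apply, sub_self] at h1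
    rw [map_sub, ← IsScalarTower.algebraMap_apply]
    exact h1

end main

end Pool.Agent.Q33.BSec
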