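import Pool.Agent.Q33.BSec.Bir

/-!
# Locally geometric sections of curves over the line minus closed points, with few contacts
-/

set_option autoImplicit false
set_option linter.unusedSectionVars false

open IsDedekindDomain NumberField Polynomial

namespace Pool.Agent.Q33.BSec

open Pool.Agent.TH942 Pool.Agent.TH954 Pool.Agent.TH841.NF
open Pool.Agent.Q33.SecL (GalSec Pt)

section main

variable {K : Type} [Field K] [NumberField K] {F M B : Type} [Field F] [Field M] [Field B]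
  [Algebra F M] [Algebra.IsAlgebraic F M] [Algebra K M] [Algebra K B] [IsAlgClosure K B]

/-- **Sections with few contacts.** -/
theorem main_gen (s : GalSection K F M B) (x : F) {r : ℕ} (θ : Fin r → B)
    (hθ : ∀ i i', i ≠ i' → minpoly K (θ i) ≠ minpoly K (θ i'))
    (enough : Module.finrank ℚ K ≤ r ∨
      (Module.finrank ℚ K ≤ 2 * r ∧ ∃ L : IntermediateField ℚ K, IsCMField L) ∨
      (IsCMField K ∧ ∃ c : Fin 3 → K, (∀ k, ∃ i, θ i = algebraMap K B (c k)) ∧
        (c 1 - c 0) / (c 2 - c 0) ∉ maximalRealSubfield K))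
    (hroot : ∀ i, ∀ N : ℕ, 0 < N → ∃ w : M, w ≠ 0 ∧ w ^ N = algebraMap F M x - s.j (θ i))
    (pl : ∀ v : HeightOneSpectrum (𝓞 K), Plc K M (AlgebraicClosure (v.adicCompletion K)))
    (hpl : ∀ v : HeightOneSpectrum (𝓞 K), Cmp (L := v.adicCompletion K) s (pl v))
    (X : ∀ v : HeightOneSpectrum (𝓞 K), v.adicCompletion K)
    (hX : ∀ v, (pl v).val (algebraMap F M x) (algebraMap _ _ (X v)))
    (hne : ∀ v i, aeval (X v) (minpoly K (θ i)) ≠ 0)
    (N : ℕ) (hN : 0 < N)
    (hsp : ∀ᶠ v in Filter.cofinite, ∀ (i : Fin r) (k : ℤ),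
      Valued.v (aeval (X v) (minpoly K (θ i))) = WithZero.exp ((N : ℤ) * k) → k = 0) :
    ∃ ξ : K, (∀ i, (minpoly K (θ i)).eval ξ ≠ 0) ∧
      (∀ v, X v = algebraMap K (v.adicCompletion K) ξ) ∧
      ∀ (i : Fin r) (N : ℕ), 0 < N → ∃ w : M,
        w ^ N = (algebraMap F M x - s.j (θ i)) / (algebraMap K M ξ - s.j (θ i)) ∧
        ∀ g : B ≃ₐ[K] B, g (θ i) = θ i → s.s g w = w := by
  have hB1 : IsAlgClosed B := IsAlgClosure.isAlgClosed K
  have hB2 : Algebra.IsAlgebraic K B := IsAlgClosure.isAlgebraic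
  have hint : ∀ z : B, IsIntegral K z := fun z => Algebra.IsIntegral.isIntegral z
  have hXv : ∀ (p : ℕ) [Fact p.Prime] (φ : K →+* PadicAlgCl p),
      (toPt φ (pl (pls φ))).Val (algebraMap F M x) (jc φ (X (pls φ))) := by
    intro p _ φ
    have h1 := toPt_val (hX (pls φ))
    rwa [bx_alg] at h1
  have hne' : ∀ (p : ℕ) [Fact p.Prime] (φ : K →+* PadicAlgCl p) (i : Fin r),
      eval₂ φ (jc φ (X (pls φ))) (minpoly K (θ i)) ≠ 0 := by
    intro p _ φ i
    rw [eval_jc]
    exact (_root_.map_ne_zero _).2 (hne _ i)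
  have hgiv : ∀ (p : ℕ) [Fact p.Prime] (φ : K →+* PadicAlgCl p),
      (toSec s).GivenBy (toPt φ (pl (pls φ))) := fun p _ φ =>
    givenBy_of_cmp s φ _ (hpl _)
  obtain ⟨D, hD, hDT⟩ := exists_bound _ (Filter.eventually_cofinite.1 hsp)
  have hunit : ∀ i : Fin r, ∃ D' : ℕ, 0 < D' ∧ ∀ (p : ℕ) [Fact p.Prime]
      (φ : K →+* PadicAlgCl p), ¬ p ∣ D' →
      ‖eval₂ φ (jc φ (X (pls φ))) (minpoly K (θ i))‖ = 1 := by
    intro i
    have := Pool.Agent.Q33.SecL.numberField_adjoin (hint (θ i))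
    refine unit_of_sparse (toSec s) x (θ i) (hroot i)
      (fun p _ φ => toPt φ (pl (pls φ))) hgiv (fun p _ φ => jc φ (X (pls φ))) hXv
      (fun p _ φ => hne' p φ i) N hN D hD ?_
    intro p _ φ hp z hz
    have h1 := hDT p φ hp
    simp only [Set.mem_ofPred_eq, not_not] at h1
    rw [eval_jc] at hz
    obtain ⟨e, he, hve⟩ := exists_ram φ
    set y := aeval (X (pls φ)) (minpoly K (θ i)) with hy
    have hy0 : Valued.v y ≠ 0 := (Valuation.ne_zero_iff _).2 (hne _ i)
    obtain ⟨m, hm⟩ : ∃ m : ℤ, Valued.v y = WithZero.exp m :=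
      ⟨WithZero.log (Valued.v y), (WithZero.exp_log hy0).symm⟩
    have h2 := norm_jc_exp φ hve hm
    have hp1 : (1 : ℝ) < p := by exact_mod_cast (Fact.out : p.Prime).one_lt
    have h3 : (p : ℝ) ^ ((N : ℤ) * z * e) = (p : ℝ) ^ m := by
      rw [← h2, hz, zpow_mul, zpow_natCast]
    have h4 : (N : ℤ) * z * e = m := zpow_right_injective₀ (by linarith) hp1.ne' h3
    have h5 : z * e = 0 := by
      apply h1 i (z * e)
      rw [← hy, hm, ← h4, mul_assoc]
    rcases mul_eq_zero.1 h5 with h6 | h6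
    · exact h6
    · have : e = 0 := by exact_mod_cast h6
      omega
  choose D' hD' hDu using hunit
  obtain ⟨ξ, h1, hξ, h2⟩ := Pool.Agent.Q33.SecL.main (toSec s) x θ hθ enough hroot
    (fun p _ φ => toPt φ (pl (pls φ))) hgiv (fun p _ φ => jc φ (X (pls φ))) hXv hne'
    ⟨∏ i, D' i, Finset.prod_pos fun i _ => hD' i, fun p _ φ i hp =>
      hDu i p φ (fun h => hp (h.trans (Finset.dvd_prod_of_mem D' (Finset.mem_univ i))))⟩
  refine ⟨ξ, h1, ?_, h2⟩
  intro v
  obtain ⟨p, hp, φ, rfl⟩ := exists_pls v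
  apply (jc φ).injective
  rw [jc_coe]
  exact hξ p φ

end main

section unr

open Pool.Agent.W620.SC (unramified)

variable {K F Ω B : Type} [Field K] [NumberField K] [Field F] [Field Ω] [Field B]
  [Algebra K F] [Algebra F Ω] [Algebra K Ω] [IsScalarTower K F Ω] [IsAlgClosure F Ω]
  [Algebra K B] [IsAlgClosure K B]

/-- roots exist if some value of `x` is none of the points -/
theorem roots_unr (C : Set (ValuationSubring F)) (hC : ∀ O ∈ C, ∀ c : K, algebraMap K F c ∈ O)
    {r : ℕ} (θ : Fin r → B) (x : F)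
    (hx : ∀ O ∈ C, x ∈ O ∧ ∀ i, (aeval x (minpoly K (θ i)))⁻¹ ∈ O)
    (s : GalSection K F (unramified F Ω C) B) {L : Type} [Field L] [Algebra K L]
    (P : Plc K (unramified F Ω C) L) (X : L) (hX : P.val (algebraMap F _ x) X)
    (hne : ∀ i, aeval X (minpoly K (θ i)) ≠ 0) (i : Fin r) (N : ℕ) (hN : 0 < N) :
    ∃ w : unramified F Ω C, w ≠ 0 ∧ w ^ N = algebraMap F _ x - s.j (θ i) := by
  have h1 : IsAlgClosed Ω := IsAlgClosure.isAlgClosed F
  have h4 : Algebra.IsAlgebraic K B := IsAlgClosure.isAlgebraic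
  have hint' : ∀ z : B, IsIntegral K z := fun z => Algebra.IsIntegral.isIntegral z
  have hx0 : aeval x (minpoly K (θ i)) ≠ 0 := by
    intro h
    apply hne i
    have h2 : P.val (aeval (algebraMap F (unramified F Ω C) x) (minpoly K (θ i)))
        (aeval X (minpoly K (θ i))) := Plc.val_aeval hX _
    rw [aeval_algebraMap_apply, h, map_zero] at h2
    exact h2.unique Plc.val_zero
  exact Pool.Agent.Q33.SecL.exists_root_unramified C hC s.j (θ i) (hint' _) x
      (fun O hO => ⟨(hx O hO).1, (hx O hO).2 i⟩) hx0 hN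

/-- a lift that arises from a ring -/
theorem arises_of_lift (C : Set (ValuationSubring F)) (s : GalSection K F (unramified F Ω C) B)
    (s' : GalSection K F Ω B)
    (h : ∀ (g : B ≃ₐ[K] B) (y : unramified F Ω C), s'.s g (y : Ω) = (s.s g y : Ω))
    (O : ValuationSubring F) (hO : s'.ArisesFrom O) : s.ArisesFrom O := by
  obtain ⟨h1, h2, h3, W, hW, hs⟩ := hO
  refine ⟨h1, h2, h3, W.comap (algebraMap (unramified F Ω C) Ω), ?_, ?_⟩
  · rw [ValuationSubring.comap_comap]
    exact hW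
  · intro g y
    rw [ValuationSubring.mem_comap, ValuationSubring.mem_comap]
    have h4 := hs g (algebraMap (unramified F Ω C) Ω y)
    have h5 : s'.s g (algebraMap (unramified F Ω C) Ω y) =
      algebraMap (unramified F Ω C) Ω (s.s g y) := h g y
    rwa [h5] at h4

end unr

end Pool.Agent.Q33.BSec
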