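import Pool.Agent.TH954.SBir
import Pool.Agent.TH841.NF.Plc
import Pool.Agent.Y811.CTK.PLC
import Pool.Agent.Q33.SecL.SecD

/-!
# Places over completions and points over embeddings in an algebraic closure of `ℚ_p`
-/

set_option autoImplicit false
set_option linter.unusedSectionVars false

open IsDedekindDomain NumberField

namespace Pool.Agent.Q33.BSec

open Pool.Agent.TH942 Pool.Agent.TH954 Pool.Agent.TH841.NF
open Pool.Agent.Q33.SecL (GalSec Pt exists_compat)

section surj

variable {K : Type} [Field K] [NumberField K]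

/-- every place belongs to an embedding -/
theorem exists_pls (v : HeightOneSpectrum (𝓞 K)) : ∃ (p : ℕ) (_ : Fact p.Prime)
    (φ : K →+* PadicAlgCl p), pls φ = v := by
  obtain ⟨p, hp, hpv⟩ := Pool.Agent.Y682.exists_prime_mem v
  have : Fact p.Prime := ⟨hp⟩
  refine ⟨p, ⟨hp⟩, ?_⟩
  let ψ := Pool.Agent.Y682.pth hpv
  let i1 : Algebra ℚ_[p] (v.adicCompletion K) := ψ.toAlgebra
  have hfin : Module.Finite ℚ_[p] (v.adicCompletion K) := Pool.Agent.Y811.CTK.pth_alg hpv
  have hcs : ContinuousSMul ℚ_[p] (v.adicCompletion K) := by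
    refine ⟨?_⟩
    have : (fun x : ℚ_[p] × v.adicCompletion K => x.1 • x.2) = fun x => ψ x.1 * x.2 := by
      funext x
      exact Algebra.smul_def _ _
    rw [this]
    exact ((Pool.Agent.Y811.CTK.pth_cont hpv).comp continuous_fst).mul continuous_snd
  have : Algebra.IsAlgebraic ℚ_[p] (v.adicCompletion K) := Algebra.IsAlgebraic.of_finite _ _
  let γ : v.adicCompletion K →ₐ[ℚ_[p]] PadicAlgCl p := IsAlgClosed.lift
  have hγ : Continuous γ := LinearMap.continuous_of_finiteDimensional γ.toLinearMap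
  refine ⟨(γ : v.adicCompletion K →+* PadicAlgCl p).comp (algebraMap K (v.adicCompletion K)), ?_⟩
  have hle : v.asIdeal ≤ (pls ((γ : v.adicCompletion K →+* PadicAlgCl p).comp
      (algebraMap K (v.adicCompletion K)))).asIdeal := by
    intro x hx
    change ‖γ (algebraMap K (v.adicCompletion K) (algebraMap (𝓞 K) K x))‖ < 1
    set y := algebraMap K (v.adicCompletion K) (algebraMap (𝓞 K) K x) with hy
    have h1 : Valued.v y < 1 := by
      rw [hy]
      change Valued.v ((algebraMap (𝓞 K) K x : K) : v.adicCompletion K) < 1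
      rw [HeightOneSpectrum.valuedAdicCompletion_eq_valuation']
      exact (v.valuation_lt_one_iff_mem x).2 hx
    have h2 : Filter.Tendsto (fun n : ℕ => y ^ n) Filter.atTop (nhds 0) :=
      Valued.tendsto_zero_pow_of_v_lt_one h1
    have h3 : Filter.Tendsto (fun n : ℕ => ‖γ y‖ ^ n) Filter.atTop (nhds 0) := by
      have h4 := (hγ.norm.tendsto 0).comp h2
      rw [map_zero, norm_zero] at h4
      refine h4.congr fun n => ?_
      change ‖γ (y ^ n)‖ = _
      rw [map_pow, norm_pow]
    have h5 := tendsto_pow_atTop_nhds_zero_iff.1 h3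
    rwa [abs_of_nonneg (norm_nonneg _)] at h5
  have hm : v.asIdeal.IsMaximal := v.isMaximal
  exact (HeightOneSpectrum.ext (hm.eq_of_le (pls _).isPrime.ne_top hle)).symm

end surj

section ext

variable {K : Type} [Field K] [NumberField K] {p : ℕ} [Fact p.Prime] (φ : K →+* PadicAlgCl p)

/-- the completion at the place of `φ` -/
abbrev Cpl : Type := (pls φ).adicCompletion K

lemma exists_ext : ∃ β : AlgebraicClosure (Cpl φ) →+* PadicAlgCl p,
    ∀ y : Cpl φ, β (algebraMap (Cpl φ) _ y) = jc φ y := by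
  let alg1 : Algebra (Cpl φ) (PadicAlgCl p) := (jc φ).toAlgebra
  let Ψ : AlgebraicClosure (Cpl φ) →ₐ[Cpl φ] PadicAlgCl p := IsAlgClosed.lift
  exact ⟨Ψ, fun z => Ψ.commutes z⟩

/-- the extension of the embedding to the algebraic closure of the completion -/
noncomputable def bx : AlgebraicClosure (Cpl φ) →+* PadicAlgCl p := (exists_ext φ).choose

lemma bx_alg (y : Cpl φ) : bx φ (algebraMap (Cpl φ) _ y) = jc φ y := (exists_ext φ).choose_spec y

variable {M : Type} [Field M] [Algebra K M]

/-- the point given by a place -/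
noncomputable def toPt (pl : Plc K M (AlgebraicClosure (Cpl φ))) : Pt K M φ where
  W := pl.W
  ρ := (bx φ).comp pl.ρ
  loc := by
    intro y hy
    apply pl.loc
    intro h
    apply hy
    change bx φ (pl.ρ y) = 0
    rw [h, map_zero]
  comm := by
    intro c
    obtain ⟨h, e⟩ := pl.comm c
    refine ⟨h, ?_⟩
    change bx φ (pl.ρ _) = _
    rw [e, IsScalarTower.algebraMap_apply K (Cpl φ) (AlgebraicClosure (Cpl φ)), bx_alg]
    exact jc_coe φ c

variable {φ}

lemma toPt_val {pl : Plc K M (AlgebraicClosure (Cpl φ))} {y : M} {c : AlgebraicClosure (Cpl φ)}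
    (h : pl.val y c) : (toPt φ pl).Val y (bx φ c) := by
  obtain ⟨h1, rfl⟩ := h
  exact ⟨h1, rfl⟩

lemma toPt_val' {pl : Plc K M (AlgebraicClosure (Cpl φ))} {y : M} {d : PadicAlgCl p}
    (h : (toPt φ pl).Val y d) : ∃ c, pl.val y c ∧ bx φ c = d := by
  obtain ⟨h1, rfl⟩ := h
  exact ⟨_, ⟨h1, rfl⟩, rfl⟩

end ext

section sections

variable {K : Type} [Field K] [NumberField K] {F Ω B : Type} [Field F] [Field Ω] [Field B]
  [Algebra F Ω] [Algebra K Ω] [Algebra K B]

/-- a section as a section in the sense of the other library -/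
def toSec (s : GalSection K F Ω B) : GalSec K F Ω B := ⟨s.j, s.s, s.cont, s.sec⟩

/-- the place `pl` is compatible with the section `s` -/
def Cmp (s : GalSection K F Ω B) {L C : Type} [Field L] [Field C] [Algebra L C] [Algebra K C]
    (pl : Plc K Ω C) : Prop :=
  ∀ (σ : C ≃ₐ[L] C) (g : B ≃ₐ[K] B),
    (∀ z c, pl.val (s.j z) c → pl.val (s.j (g z)) (σ c)) →
    ∀ x c, pl.val x c → pl.val (s.s g x) (σ c)

theorem givenBy_of_cmp (s : GalSection K F Ω B) {p : ℕ} [Fact p.Prime]
    (φ : K →+* PadicAlgCl p) (pl : Plc K Ω (AlgebraicClosure (Cpl φ)))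
    (h : Cmp (L := Cpl φ) s pl) : (toSec s).GivenBy (toPt φ pl) := by
  intro σ g hσ hc y c hy
  obtain ⟨σ', hσ'⟩ := exists_compat (K := Cpl φ) (bx φ)
    ((σ : PadicAlgCl p →+* PadicAlgCl p).comp (bx φ)) (by
      ext y
      change bx φ (algebraMap (Cpl φ) _ y) = σ (bx φ (algebraMap (Cpl φ) _ y))
      rw [bx_alg]
      exact (fix_lf φ σ hσ (Subtype.property _)).symm)
  obtain ⟨c, hc', rfl⟩ := toPt_val' hy
  have h1 := h σ' g (by
    intro z c hz
    obtain ⟨d, hd, hd'⟩ := toPt_val' (hc z _ (toPt_val hz))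
    have h2 : d = σ' c := by
      apply (bx φ).injective
      rw [hd', hσ']
      rfl
    rw [← h2]
    exact hd) y c hc'
  have h2 := toPt_val h1
  rw [hσ'] at h2
  exact h2

end sections

end Pool.Agent.Q33.BSec
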